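import Pool.Agent.H717.PM.Stm

/-!
# Recognition of `k`-OR-PCGs and so on: CONV, ONE, ISO3
-/

set_option autoImplicit false

namespace Pool.Agent.H195.PM

open Pool.Agent.H717.PM
open Pool.Agent.R39.PCG (WTree IsInterval IsOrPCG IsAndPCG IsIntervalPCG IsPCG)

theorem exists_adj {W : Type} {T : SimpleGraph W} (hT : T.IsTree) {x y : W} (hxy : x ≠ y) :
    ∃ z, T.Adj x z := by
  obtain ⟨p⟩ := hT.connected.preconnected x y
  cases p with
  | nil => exact absurd rfl hxy
  | cons h _ => exact ⟨_, h⟩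

theorem t_conv : S_conv := by
  intro V _ t
  obtain ⟨a, b, hab⟩ := exists_pair_ne V
  have hne : t.leaf a ≠ t.leaf b := fun h => hab (t.leaf_inj h)
  refine ⟨{ W := t.W, finite := t.fin, T := t.T, isTree := t.isTree, w := t.w,
            nonneg := fun e he => (t.w_pos e he).le, leaf := t.leaf,
            leaf_injective := t.leaf_inj, range_leaf := ?_ }, fun u v => rfl⟩
  ext x
  rw [t.leaf_iff x]
  have hfin : Finite t.W := t.fin
  have hadj : ∃ z, t.T.Adj x z := by
    by_cases hx : x = t.leaf a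
    · subst hx
      exact exists_adj t.isTree hne
    · exact exists_adj t.isTree hx
  have hpos : 0 < (t.T.neighborSet x).ncard := by
    rw [Set.ncard_pos (Set.toFinite _)]
    obtain ⟨z, hz⟩ := hadj
    exact ⟨z, hz⟩
  constructor
  · intro h
    have : (t.T.neighborSet x).ncard = 1 := by omega
    exact this
  · intro h
    have h1 : (t.T.neighborSet x).ncard = 1 := h
    omega

theorem t_one : S_one := by
  intro V G
  refine ⟨⟨?_, ?_⟩, ⟨?_, ?_⟩, ⟨?_, ?_⟩⟩
  · rintro ⟨τ, I, hI, h⟩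
    refine ⟨τ 0, I 0, hI 0, fun u v huv => ?_⟩
    rw [h u v huv]
    constructor
    · rintro ⟨i, hi⟩
      have : i = 0 := Subsingleton.elim _ _
      rw [this] at hi
      exact hi
    · intro h0
      exact ⟨0, h0⟩
  · rintro ⟨τ, I, hI, h⟩
    refine ⟨fun _ => τ, fun _ => I, fun _ => hI, fun u v huv => ?_⟩
    rw [h u v huv]
    exact ⟨fun h0 => ⟨0, h0⟩, fun ⟨_, h0⟩ => h0⟩
  · rintro ⟨τ, I, hI, h⟩
    refine ⟨τ 0, I 0, hI 0, fun u v huv => ?_⟩
    rw [h u v huv]
    constructor
    · intro hi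
      exact hi 0
    · intro h0 i
      have : i = 0 := Subsingleton.elim _ _
      rw [this]
      exact h0
  · rintro ⟨τ, I, hI, h⟩
    refine ⟨fun _ => τ, fun _ => I, fun _ => hI, fun u v huv => ?_⟩
    rw [h u v huv]
    exact ⟨fun h0 _ => h0, fun h0 => h0 0⟩
  · rintro ⟨τ, I, hI, -, h⟩
    refine ⟨τ, I 0, hI 0, fun u v huv => ?_⟩
    rw [h u v huv]
    constructor
    · rintro ⟨i, hi⟩
      have : i = 0 := Subsingleton.elim _ _
      rw [this] at hi
      exact hi
    · intro h0
      exact ⟨0, h0⟩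
  · rintro ⟨τ, I, hI, h⟩
    refine ⟨τ, fun _ => I, fun _ => hI, fun i j hij => ?_, fun u v huv => ?_⟩
    · exact absurd (Subsingleton.elim i j) hij
    · rw [h u v huv]
      exact ⟨fun h0 => ⟨0, h0⟩, fun ⟨_, h0⟩ => h0⟩

theorem t_iso3 : S_iso3 := by
  rintro V V' G G' e ⟨τ, I, hI, h⟩
  refine ⟨{ W := τ.W, finite := τ.finite, T := τ.T, isTree := τ.isTree, w := τ.w,
            nonneg := τ.nonneg, leaf := fun v => τ.leaf (e.symm v),
            leaf_injective := fun a b hab => e.symm.injective (τ.leaf_injective hab),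
            range_leaf := ?_ }, I, hI, ?_⟩
  · rw [← τ.range_leaf]
    ext x
    constructor
    · rintro ⟨v, hv⟩
      exact ⟨e.symm v, hv⟩
    · rintro ⟨v, hv⟩
      refine ⟨e v, ?_⟩
      change τ.leaf (e.symm (e v)) = x
      rw [RelIso.symm_apply_apply, hv]
  · intro u v huv
    have h1 : G'.Adj u v ↔ G.Adj (e.symm u) (e.symm v) := by
      have h2 := e.map_rel_iff (a := e.symm u) (b := e.symm v)
      rw [RelIso.apply_symm_apply, RelIso.apply_symm_apply] at h2
      exact h2
    rw [h1, h _ _ (fun h2 => huv (e.symm.injective h2))]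
    exact Iff.rfl

end Pool.Agent.H195.PM
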